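import Mathlib

set_option autoImplicit false

namespace Pool.Agent.Lib.MP_94c361_co_D

open MvPolynomial Finset

section General

variable {V : Type} [Fintype V] [DecidableEq V] {R : Type} [CommRing R]

lemma coeff_pd (i : V) (m : V →₀ ℕ) (p : MvPolynomial V R) :
    coeff m (pderiv i p) = ((m i : R) + 1) * coeff (m + Finsupp.single i 1) p := by
  induction p using MvPolynomial.induction_on' with
  | monomial s a =>
    rw [pderiv_monomial, coeff_monomial, coeff_monomial]
    by_cases h : s = m + Finsupp.single i 1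
    · have h1 : s - Finsupp.single i 1 = m := by rw [h]; simp
      have h2 : s i = m i + 1 := by rw [h]; simp
      rw [if_pos h1, if_pos h, h2]
      push_cast
      ring
    · rw [if_neg h, mul_zero]
      by_cases h1 : s - Finsupp.single i 1 = m
      · have h2 : s i = 0 := by
          by_contra h3
          apply h
          rw [← h1]
          ext j
          by_cases hj : j = i
          · subst hj
            simp
            omega
          · simp [Ne.symm hj]
        rw [if_pos h1, h2]
        simp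
      · rw [if_neg h1]
  | add p q hp hq =>
    rw [map_add, coeff_add, coeff_add, hp, hq]
    ring

/-- Coefficients indexed by functions. -/
noncomputable def cf (p : MvPolynomial V R) (b : V → ℕ) : R := coeff (Finsupp.equivFunOnFinite.symm b) p

lemma rel (p : MvPolynomial V R) (hp : ∑ i, pderiv i p = 0) (b : V → ℕ) :
    ∑ z, ((b z : R) + 1) * cf p (Function.update b z (b z + 1)) = 0 := by
  have h := congrArg (coeff (Finsupp.equivFunOnFinite.symm b)) hp
  rw [coeff_sum, coeff_zero] at h
  rw [← h]
  refine Finset.sum_congr rfl fun z _ => ?_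
  rw [coeff_pd]
  have h1 : Finsupp.equivFunOnFinite.symm b + Finsupp.single z 1 =
      Finsupp.equivFunOnFinite.symm (Function.update b z (b z + 1)) := by
    ext j
    by_cases hj : j = z
    · subst hj; simp
    · simp [Ne.symm hj, Function.update_of_ne hj]
  rw [h1]
  rfl

/-- The exponent vector with `k` at `u`, `1` on `A` and `2` elsewhere. -/
def ev (u : V) (k : ℕ) (A : Finset V) : V → ℕ := fun z => if z = u then k else if z ∈ A then 1 else 2

lemma ev_update_self (u : V) (k l : ℕ) (A : Finset V) : Function.update (ev u k A) u l = ev u l A := by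
  ext z
  by_cases hz : z = u
  · subst hz; simp [ev]
  · simp [ev, hz]

lemma ev_update_mem (u : V) (k : ℕ) (A : Finset V) (v : V) (hv : v ≠ u) :
    Function.update (ev u k A) v 2 = ev u k (A.erase v) := by
  ext z
  by_cases hz : z = v
  · subst hz; simp [ev, hv]
  · simp [ev, hz]

lemma relMod (p : MvPolynomial V (ZMod 3)) (hp : ∑ i, pderiv i p = 0) (u : V) (k : ℕ)
    (A : Finset V) (hu : u ∉ A) :
    2 * ∑ v ∈ A, cf p (ev u k (A.erase v)) + ((k : ZMod 3) + 1) * cf p (ev u (k + 1) A) = 0 := by
  have h := rel p hp (ev u k A)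
  have h3 : (2 : ZMod 3) + 1 = 0 := by decide
  rw [← Finset.sum_subset (Finset.subset_univ (insert u A)), Finset.sum_insert hu] at h
  · have hu1 : ev u k A u = k := by simp [ev]
    rw [hu1, ev_update_self] at h
    have h4 : ∑ x ∈ A, (((ev u k A x : ℕ) : ZMod 3) + 1) *
        cf p (Function.update (ev u k A) x (ev u k A x + 1)) =
        2 * ∑ v ∈ A, cf p (ev u k (A.erase v)) := by
      rw [Finset.mul_sum]
      refine Finset.sum_congr rfl fun v hv => ?_
      have hvu : v ≠ u := fun h => hu (h ▸ hv)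
      have h5 : ev u k A v = 1 := by simp [ev, hvu, hv]
      rw [h5, ev_update_mem u k A v hvu]
      norm_num
    rw [h4] at h
    rw [add_comm]
    exact h
  · intro z _ hz
    rw [Finset.mem_insert, not_or] at hz
    have h5 : ev u k A z = 2 := by simp [ev, hz.1, hz.2]
    rw [h5]
    push_cast
    rw [h3, zero_mul]

lemma triple (p : MvPolynomial V (ZMod 3)) (hp : ∑ i, pderiv i p = 0)
    (hdeg : ∀ u, ∀ b : V → ℕ, 4 < b u → cf p b = 0) (u v w y : V) (hvu : v ≠ u) (hwu : w ≠ u)
    (hyu : y ≠ u) (hvw : v ≠ w) (hvy : v ≠ y) (hwy : w ≠ y) :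
    cf p (ev u 3 {v}) + cf p (ev u 3 {w}) + cf p (ev u 3 {y}) = 0 := by
  have h3 : (3 : ZMod 3) = 0 := by decide
  have pair : ∀ a b : V, a ≠ u → b ≠ u → a ≠ b →
      cf p (ev u 4 {a, b}) = cf p (ev u 3 {a}) + cf p (ev u 3 {b}) := by
    intro a b ha hb hab
    have h := relMod p hp u 3 {a, b} (by simp [Ne.symm ha, Ne.symm hb])
    rw [Finset.sum_pair hab] at h
    have e1 : ({a, b} : Finset V).erase a = {b} := by
      ext z; simp only [Finset.mem_erase, Finset.mem_insert, Finset.mem_singleton]
      constructor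
      · rintro ⟨h1, h2 | h2⟩
        · exact absurd h2 h1
        · exact h2
      · rintro rfl; exact ⟨Ne.symm hab, Or.inr rfl⟩
    have e2 : ({a, b} : Finset V).erase b = {a} := by
      ext z; simp only [Finset.mem_erase, Finset.mem_insert, Finset.mem_singleton]
      constructor
      · rintro ⟨h1, h2 | h2⟩
        · exact h2
        · exact absurd h2 h1
      · rintro rfl; exact ⟨hab, Or.inl rfl⟩
    rw [e1, e2] at h
    push_cast at h
    linear_combination h - (cf p (ev u 3 {a}) + cf p (ev u 3 {b}) + cf p (ev u 4 {a, b})) * h3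
  have h := relMod p hp u 4 {v, w, y} (by simp [Ne.symm hvu, Ne.symm hwu, Ne.symm hyu])
  rw [Finset.sum_insert (by simp [hvw, hvy]), Finset.sum_pair hwy] at h
  have h5 : cf p (ev u (4 + 1) {v, w, y}) = 0 := hdeg u _ (by simp [ev])
  have e1 : ({v, w, y} : Finset V).erase v = {w, y} := by
    rw [Finset.erase_insert (by simp [hvw, hvy])]
  have e2 : ({v, w, y} : Finset V).erase w = {v, y} := by
    ext z; simp only [Finset.mem_erase, Finset.mem_insert, Finset.mem_singleton]
    constructor
    · rintro ⟨h1, h2 | h2 | h2⟩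
      · exact Or.inl h2
      · exact absurd h2 h1
      · exact Or.inr h2
    · rintro (rfl | rfl)
      · exact ⟨hvw, Or.inl rfl⟩
      · exact ⟨Ne.symm hwy, Or.inr (Or.inr rfl)⟩
  have e3 : ({v, w, y} : Finset V).erase y = {v, w} := by
    ext z; simp only [Finset.mem_erase, Finset.mem_insert, Finset.mem_singleton]
    constructor
    · rintro ⟨h1, h2 | h2 | h2⟩
      · exact Or.inl h2
      · exact Or.inr h2
      · exact absurd h2 h1
    · rintro (rfl | rfl)
      · exact ⟨hvy, Or.inl rfl⟩
      · exact ⟨hwy, Or.inr (Or.inl rfl)⟩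
  rw [e1, e2, e3, h5, pair w y hwu hyu hwy, pair v y hvu hyu hvy, pair v w hvu hwu hvw] at h
  linear_combination h - (cf p (ev u 3 {v}) + cf p (ev u 3 {w}) + cf p (ev u 3 {y})) * h3

lemma sum_triples (f : V → ZMod 3) : ∀ (m : ℕ) (s : Finset V), s.card = 3 * m →
    (∀ v ∈ s, ∀ w ∈ s, ∀ y ∈ s, v ≠ w → v ≠ y → w ≠ y → f v + f w + f y = 0) →
    ∑ v ∈ s, f v = 0 := by
  intro m
  induction m with
  | zero =>
    intro s hs _
    have : s = ∅ := Finset.card_eq_zero.mp (by simpa using hs)
    simp [this]
  | succ m ih =>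
    intro s hs h
    obtain ⟨t, hts, ht⟩ := Finset.exists_subset_card_eq (show 3 ≤ s.card by omega)
    obtain ⟨x, y, z, hxy, hxz, hyz, rfl⟩ := Finset.card_eq_three.mp ht
    have h1 := ih (s \ {x, y, z}) (by rw [Finset.card_sdiff_of_subset hts, ht, hs]; omega)
      (fun v hv w hw y hy => h v (Finset.sdiff_subset hv) w (Finset.sdiff_subset hw) y
        (Finset.sdiff_subset hy))
    rw [← Finset.sum_sdiff hts, h1, zero_add, Finset.sum_insert (by simp [hxy, hxz]),
      Finset.sum_pair hyz, ← add_assoc]
    exact h x (hts (by simp)) y (hts (by simp)) z (hts (by simp)) hxy hxz hyz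

lemma relZ (p : MvPolynomial V ℤ) (hp : ∑ i, pderiv i p = 0) (v : V) :
    2 * cf p (fun _ => 2) + 3 * ∑ u ∈ Finset.univ.erase v, cf p (ev u 3 {v}) = 0 := by
  have h := rel p hp (ev v 1 ∅)
  rw [← Finset.add_sum_erase _ _ (Finset.mem_univ v)] at h
  have h1 : ev v 1 ∅ v = 1 := by simp [ev]
  have h2 : ev v 2 ∅ = fun _ => 2 := by ext z; simp [ev]
  rw [h1, ev_update_self, h2] at h
  have h3 : ∑ x ∈ Finset.univ.erase v, (((ev v 1 ∅ x : ℕ) : ℤ) + 1) *
      cf p (Function.update (ev v 1 ∅) x (ev v 1 ∅ x + 1)) =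
      3 * ∑ u ∈ Finset.univ.erase v, cf p (ev u 3 {v}) := by
    rw [Finset.mul_sum]
    refine Finset.sum_congr rfl fun x hx => ?_
    have hxv : x ≠ v := (Finset.mem_erase.mp hx).1
    have h4 : ev v 1 ∅ x = 2 := by simp [ev, hxv]
    have h5 : Function.update (ev v 1 ∅) x (2 + 1) = ev x 3 {v} := by
      ext z
      by_cases hz : z = x
      · subst hz; simp [ev]
      · simp [ev, hz]
    rw [h4, h5]
    norm_num
  rw [h3] at h
  push_cast at h
  linarith

theorem div3 (p : MvPolynomial V ℤ) (hp : ∑ i, pderiv i p = 0) [Nonempty V] :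
    3 ∣ cf p (fun _ => 2) := by
  obtain ⟨v⟩ := ‹Nonempty V›
  have h := relZ p hp v
  omega

theorem div9 (p : MvPolynomial V ℤ) (hp : ∑ i, pderiv i p = 0)
    (hdeg : ∀ u, ∀ b : V → ℕ, 4 < b u → cf p b = 0) (hn : Fintype.card V % 3 = 1) :
    9 ∣ cf p (fun _ => 2) := by
  have : Nonempty V := Fintype.card_pos_iff.mp (by omega)
  obtain ⟨c, hc⟩ := div3 p hp
  -- reduction modulo 3
  set q : MvPolynomial V (ZMod 3) := map (Int.castRingHom (ZMod 3)) p with hq
  have hcf : ∀ b, cf q b = ((cf p b : ℤ) : ZMod 3) := by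
    intro b; simp [cf, hq, coeff_map]
  have hq0 : ∑ i, pderiv i q = 0 := by
    have h1 : ∀ i, pderiv i q = map (Int.castRingHom (ZMod 3)) (pderiv i p) := by
      intro i; rw [hq, pderiv_map]
    simp_rw [h1]
    rw [← map_sum, hp, map_zero]
  have hqd : ∀ u, ∀ b : V → ℕ, 4 < b u → cf q b = 0 := by
    intro u b hb; rw [hcf, hdeg u b hb]; simp
  have hrow : ∀ u : V, ∑ v ∈ Finset.univ.erase u, cf q (ev u 3 {v}) = 0 := by
    intro u
    refine sum_triples (fun v => cf q (ev u 3 {v})) ((Fintype.card V - 1) / 3) _ ?_ ?_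
    · rw [Finset.card_erase_of_mem (Finset.mem_univ u), Finset.card_univ]; omega
    · intro v hv w hw y hy hvw hvy hwy
      exact triple q hq0 hqd u v w y (Finset.mem_erase.mp hv).1 (Finset.mem_erase.mp hw).1
        (Finset.mem_erase.mp hy).1 hvw hvy hwy
  set T : ℤ := ∑ v : V, ∑ u ∈ Finset.univ.erase v, cf p (ev u 3 {v}) with hT
  have hsum : 2 * (Fintype.card V : ℤ) * cf p (fun _ => 2) + 3 * T = 0 := by
    have h1 : ∑ v : V, (2 * cf p (fun _ => 2) + 3 * ∑ u ∈ Finset.univ.erase v, cf p (ev u 3 {v})) =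
        0 := Finset.sum_eq_zero fun v _ => relZ p hp v
    rw [Finset.sum_add_distrib, Finset.sum_const, Finset.card_univ, nsmul_eq_mul,
      ← Finset.mul_sum, ← hT] at h1
    linarith
  have hT3 : (3 : ℤ) ∣ T := by
    have h1 : ((T : ℤ) : ZMod 3) = 0 := by
      have h2 : ((T : ℤ) : ZMod 3) = ∑ v : V, ∑ u ∈ Finset.univ.erase v, cf q (ev u 3 {v}) := by
        rw [hT]; push_cast; simp_rw [hcf]
      rw [h2]
      have h3 : ∑ v : V, ∑ u ∈ Finset.univ.erase v, cf q (ev u 3 {v}) =
          ∑ u : V, ∑ v ∈ Finset.univ.erase u, cf q (ev u 3 {v}) := by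
        refine Finset.sum_comm' ?_
        intro x y
        simp [eq_comm]
      rw [h3]
      exact Finset.sum_eq_zero fun u _ => hrow u
    exact (ZMod.intCast_zmod_eq_zero_iff_dvd T 3).mp h1
  obtain ⟨t, ht⟩ := hT3
  obtain ⟨m, hm⟩ : ∃ m : ℕ, Fintype.card V = 3 * m + 1 := ⟨Fintype.card V / 3, by omega⟩
  rw [hc, ht, hm] at hsum
  push_cast at hsum
  have h9 : 3 ∣ c := by
    have h4 : 2 * (3 * (m : ℤ) + 1) * c + 3 * t = 0 := by nlinarith
    have h5 : (3 : ℤ) ∣ 2 * c := ⟨-(2 * m * c + t), by linarith⟩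
    omega
  obtain ⟨d, hd⟩ := h9
  rw [hc, hd]
  exact ⟨d, by ring⟩

end General

section Graph

variable {V E : Type} [Fintype V] [DecidableEq V] [Fintype E] [DecidableEq E]

/-- The graph polynomial of the multigraph with edges `e : E` joining `s e` and `t e`. -/
noncomputable def graphPoly (s t : E → V) : MvPolynomial V ℤ := ∏ e, (X (s e) - X (t e))

/-- Every vertex has degree four (a loop counts twice). -/
def FourRegular (s t : E → V) : Prop :=
  ∀ v : V, (Finset.univ.filter fun e => s e = v).card + (Finset.univ.filter fun e => t e = v).card = 4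

/-- The coefficient of `∏ x_v ^ 2` in the graph polynomial. -/
noncomputable def atc (s t : E → V) : ℤ :=
  coeff (Finsupp.equivFunOnFinite.symm fun _ => 2) (graphPoly s t)

lemma graphPoly_inv (s t : E → V) : ∑ i, pderiv i (graphPoly s t) = 0 := by
  unfold graphPoly
  refine Finset.prod_induction _ (fun f : MvPolynomial V ℤ => ∑ i, pderiv i f = 0) ?_ ?_ ?_
  · intro a b ha hb
    simp_rw [pderiv_mul]
    rw [Finset.sum_add_distrib, ← Finset.sum_mul, ← Finset.mul_sum, ha, hb]
    ring
  · simp
  · intro e _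
    simp [pderiv_X, Finset.sum_sub_distrib, Pi.single_apply]

lemma graphPoly_deg (s t : E → V) (h : FourRegular s t) (u : V) (b : V → ℕ) (hb : 4 < b u) :
    cf (graphPoly s t) b = 0 := by
  by_contra hne
  have h1 : Finsupp.equivFunOnFinite.symm b ∈ (graphPoly s t).support := by
    rw [mem_support_iff]; exact hne
  have h2 := monomial_le_degreeOf u h1
  have h3 : degreeOf u (graphPoly s t) ≤ 4 := by
    refine (degreeOf_prod_le u _ _).trans ?_
    rw [← h u, Finset.card_filter, Finset.card_filter, ← Finset.sum_add_distrib]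
    refine Finset.sum_le_sum fun e _ => ?_
    refine (degreeOf_sub_le u _ _).trans ?_
    rw [degreeOf_X, degreeOf_X]
    simp only [eq_comm (a := u)]
    split_ifs <;> simp
  have h4 : (Finsupp.equivFunOnFinite.symm b) u = b u := rfl
  rw [h4] at h2
  omega

lemma even_atc (s t : E → V) (h : FourRegular s t) [Nonempty V] : 2 ∣ atc s t := by
  classical
  have hE : Nonempty E := by
    obtain ⟨v⟩ := ‹Nonempty V›
    by_contra hcon
    rw [not_nonempty_iff] at hcon
    have := h v
    simp at this
  have h1 : ((atc s t : ℤ) : ZMod 2) = 0 := by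
    have h2 : ((atc s t : ℤ) : ZMod 2) =
        coeff (Finsupp.equivFunOnFinite.symm fun _ => 2)
          (map (Int.castRingHom (ZMod 2)) (graphPoly s t)) := by
      rw [coeff_map]; rfl
    have h3 : map (Int.castRingHom (ZMod 2)) (graphPoly s t) =
        ∏ e, ((X (s e) : MvPolynomial V (ZMod 2)) + X (t e)) := by
      unfold graphPoly
      rw [map_prod]
      refine Finset.prod_congr rfl fun e _ => ?_
      rw [map_sub, map_X, map_X]
      have h2' : (2 : MvPolynomial V (ZMod 2)) = 0 := by
        rw [← map_ofNat (C : ZMod 2 →+* MvPolynomial V (ZMod 2)) 2]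
        rw [show (OfNat.ofNat 2 : ZMod 2) = 0 by decide, map_zero]
      linear_combination -(X (t e)) * h2'
    rw [h2, h3, Finset.prod_add, coeff_sum]
    have hprod : ∀ (A B : Finset E), (∏ e ∈ A, (X (s e) : MvPolynomial V (ZMod 2))) *
        ∏ e ∈ B, (X (t e) : MvPolynomial V (ZMod 2)) =
        monomial (∑ e ∈ A, Finsupp.single (s e) 1 + ∑ e ∈ B, Finsupp.single (t e) 1) 1 := by
      intro A B
      have h4 : (monomial (∑ e ∈ A, Finsupp.single (s e) 1 + ∑ e ∈ B, Finsupp.single (t e) 1)
          (1 : ZMod 2)) = monomial (∑ e ∈ A, Finsupp.single (s e) 1) 1 *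
            monomial (∑ e ∈ B, Finsupp.single (t e) 1) 1 := by
        rw [monomial_mul, one_mul]
      rw [h4, monomial_sum_one, monomial_sum_one]
      rfl
    have hval : ∀ T : Finset E, coeff (Finsupp.equivFunOnFinite.symm fun _ => 2)
        ((∏ e ∈ T, (X (s e) : MvPolynomial V (ZMod 2))) *
          ∏ e ∈ Finset.univ \ T, (X (t e) : MvPolynomial V (ZMod 2))) =
        if ∑ e ∈ T, Finsupp.single (s e) 1 + ∑ e ∈ Finset.univ \ T, Finsupp.single (t e) 1 =
          Finsupp.equivFunOnFinite.symm (fun _ : V => 2) then 1 else 0 := by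
      intro T
      rw [hprod, coeff_monomial]
    have hsum : ∀ T : Finset E, (∑ e ∈ T, Finsupp.single (s e) 1 +
        ∑ e ∈ Finset.univ \ T, Finsupp.single (t e) 1) +
        (∑ e ∈ Finset.univ \ T, Finsupp.single (s e) 1 +
        ∑ e ∈ Finset.univ \ (Finset.univ \ T), Finsupp.single (t e) 1) =
        Finsupp.equivFunOnFinite.symm (fun _ : V => 4) := by
      intro T
      rw [Finset.sdiff_sdiff_eq_self (Finset.subset_univ T)]
      have h5 := Finset.sum_sdiff (Finset.subset_univ T) (f := fun e => Finsupp.single (s e) 1)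
      have h6 := Finset.sum_sdiff (Finset.subset_univ T) (f := fun e => Finsupp.single (t e) 1)
      have h7 : (∑ e ∈ T, Finsupp.single (s e) 1 +
        ∑ e ∈ Finset.univ \ T, Finsupp.single (t e) 1) +
        (∑ e ∈ Finset.univ \ T, Finsupp.single (s e) 1 +
        ∑ e ∈ T, Finsupp.single (t e) 1) =
          (∑ e, Finsupp.single (s e) 1) + ∑ e, Finsupp.single (t e) 1 := by
        rw [← h5, ← h6]; abel
      rw [h7]
      ext v
      rw [Finsupp.add_apply, Finsupp.finsetSum_apply, Finsupp.finsetSum_apply]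
      have h8 := h v
      rw [Finset.card_filter, Finset.card_filter] at h8
      simp only [Finsupp.single_apply]
      exact h8
    refine Finset.sum_involution (fun T _ => Finset.univ \ T) ?_ ?_ ?_ ?_
    · intro T _
      rw [hval, hval]
      have h9 := hsum T
      set m₁ := ∑ e ∈ T, Finsupp.single (s e) 1 + ∑ e ∈ Finset.univ \ T, Finsupp.single (t e) 1
      set m₂ := ∑ e ∈ Finset.univ \ T, Finsupp.single (s e) 1 +
        ∑ e ∈ Finset.univ \ (Finset.univ \ T), Finsupp.single (t e) 1
      have h10 : ∀ v, m₁ v + m₂ v = 4 := fun v => by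
        have := DFunLike.congr_fun h9 v
        simpa using this
      by_cases hc : m₁ = Finsupp.equivFunOnFinite.symm (fun _ : V => 2)
      · have hc2 : m₂ = Finsupp.equivFunOnFinite.symm (fun _ : V => 2) := by
          ext v
          have h11 := h10 v
          rw [hc] at h11
          simp at h11 ⊢
          omega
        rw [if_pos hc, if_pos hc2]
        decide
      · have hc2 : m₂ ≠ Finsupp.equivFunOnFinite.symm (fun _ : V => 2) := by
          intro hc2
          apply hc
          ext v
          have h11 := h10 v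
          rw [hc2] at h11
          simp at h11 ⊢
          omega
        rw [if_neg hc, if_neg hc2]
        decide
    · intro T _ _ hT
      obtain ⟨e⟩ := hE
      have h12 : e ∈ Finset.univ \ T ↔ e ∈ T := by rw [hT]
      simp at h12
    · intro T _
      simp
    · intro T _
      simp
  exact (ZMod.intCast_zmod_eq_zero_iff_dvd _ 2).mp h1

/-- The coefficient is divisible by `6`, and by `18` if the number of vertices is `1` modulo `3`. -/
theorem main (s t : E → V) (h : FourRegular s t) [Nonempty V] :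
    (if Fintype.card V % 3 = 1 then 18 else 6) ∣ atc s t := by
  have h2 := even_atc s t h
  have h3 : 3 ∣ atc s t := div3 (graphPoly s t) (graphPoly_inv s t)
  split_ifs with hc
  · have h9 : 9 ∣ atc s t := div9 (graphPoly s t) (graphPoly_inv s t) (graphPoly_deg s t h) hc
    omega
  · omega

end Graph

end Pool.Agent.Lib.MP_94c361_co_D
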